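import Pool.Agent.Lib.MP_b2135d_an.VMain

namespace Pool.Agent.Results.MP_b2135d_an.FullRokhlin

open Pool.Agent.Izumi

theorem result (G D : Type) [Group G] [Countable G] [CStarAlgebra D] [PartialOrder D]
    [StarOrderedRing D] (hD : IsStronglySelfAbsorbing D) (hG : IsAmenableGroup G)
    (α β : G →* (D ≃⋆ₐ[ℂ] D)) (hα : IsStronglyOuter α) (hβ : IsStronglyOuter β)
    (hR : ∀ (H : Subgroup G) [Fintype H], H ≠ ⊥ →
      HasRokhlinProperty (α.comp H.subtype) ∧ HasRokhlinProperty (β.comp H.subtype)) :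
    CocycleConjugate α β :=
  main_rok hD hG α β hα hβ (RokFin.of_ne_bot fun H _ h => (hR H h).1)
    (RokFin.of_ne_bot fun H _ h => (hR H h).2)

/-- The torsion-free case (Q1): there is no nontrivial finite subgroup. -/
theorem torsionFree (G D : Type) [Group G] [Countable G] [CStarAlgebra D] [PartialOrder D]
    [StarOrderedRing D] (hD : IsStronglySelfAbsorbing D) (hG : IsAmenableGroup G)
    (htf : ∀ g : G, IsOfFinOrder g → g = 1) (α β : G →* (D ≃⋆ₐ[ℂ] D))
    (hα : IsStronglyOuter α) (hβ : IsStronglyOuter β) : CocycleConjugate α β :=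
  result G D hD hG α β hα hβ fun H _ h => absurd ((Subgroup.eq_bot_iff_forall H).2 fun g hg =>
    htf g (H.subtype.isOfFinOrder (isOfFinOrder_of_finite (⟨g, hg⟩ : H)))) h

end Pool.Agent.Results.MP_b2135d_an.FullRokhlin
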